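import Pool.Agent.helper55.NT.Threshold

/-!
Hazards: the ternary evaluation of circuits, circuits without hazards on few unknown bits, and
languages with such circuits.
-/

set_option autoImplicit false

namespace Pool.Agent.helper88.HT

open Pool.Agent.helper38.Neg Pool.Agent.helper55.NT

/-- AND of Kleene's ternary logic; `none` is the unknown value. -/
def and3 : Option Bool → Option Bool → Option Bool
  | some false, _ => some false
  | _, some false => some false
  | some true, some true => some true
  | _, _ => none

/-- OR of Kleene's ternary logic. -/
def or3 : Option Bool → Option Bool → Option Bool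
  | some true, _ => some true
  | _, some true => some true
  | some false, some false => some false
  | _, _ => none

/-- NOT of Kleene's ternary logic. -/
def not3 : Option Bool → Option Bool
  | some b => some (!b)
  | none => none

/-- The ternary value of a gate. -/
def geval3 {w : ℕ} (v : Fin w → Option Bool) : Gate w → Option Bool
  | Gate.const b => some b
  | Gate.and i j => and3 (v i) (v j)
  | Gate.or i j => or3 (v i) (v j)
  | Gate.not i => not3 (v i)

/-- The ternary values of all wires of a circuit on the ternary input `a`. -/
def val3 {n : ℕ} : {s : ℕ} → Circuit n s → (Fin n → Option Bool) → (Fin (n + s) → Option Bool)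
  | _, Circuit.nil, a => a
  | _, Circuit.snoc C g, a => Fin.snoc (α := fun _ => Option Bool) (val3 C a) (geval3 (val3 C a) g)

/-- The number of unknown bits of a ternary input. -/
def unk {n : ℕ} (a : Fin n → Option Bool) : ℕ := (Finset.univ.filter fun i => a i = none).card

/-- The input `x` is a completion of the ternary input `a`. -/
def Compl {n : ℕ} (a : Fin n → Option Bool) (x : Fin n → Bool) : Prop :=
  ∀ i, a i = none ∨ a i = some (x i)

/-- The circuit `C` with output wire `o` has no `b`-hazard on at most `k` unknown bits: if the
value is `b` on all completions of a ternary input with at most `k` unknown bits, then its ternary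
value is `b`. -/
def HazardFree (b : Bool) (k : ℕ) {n s : ℕ} (C : Circuit n s) (o : Fin (n + s)) : Prop :=
  ∀ a : Fin n → Option Bool, unk a ≤ k → (∀ x, Compl a x → C.val x o = b) → val3 C a o = some b

/-- The language `A` has circuits with at most `S n` gates without `b`-hazards on at most `k n`
unknown bits and without `!b`-hazards on at most `l n` unknown bits. -/
def HasHF (S : ℕ → ℕ) (b : Bool) (k l : ℕ → ℕ) (A : Lang) : Prop :=
  ∀ n, ∃ s ≤ S n, ∃ (C : Circuit n s) (o : Fin (n + s)),
    C.Computes o (A n) ∧ HazardFree b (k n) C o ∧ HazardFree (!b) (l n) C o

/-- The same with polynomial size. -/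
def PolyHF (b : Bool) (k l : ℕ → ℕ) (A : Lang) : Prop :=
  ∃ p : Polynomial ℕ, HasHF (fun n => p.eval n) b k l A

/-- The same with quasi-polynomial size. -/
def QuasiHF (b : Bool) (k l : ℕ → ℕ) (A : Lang) : Prop :=
  ∃ c : ℕ, HasHF (fun n => 2 ^ (c * lg n ^ c)) b k l A

end Pool.Agent.helper88.HT
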