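import Pool.Agent.helper88.HT.Spec

/-! Row ht:LBM. -/

set_option autoImplicit false

namespace Pool.Agent.helper88.HT

open Pool.Agent.helper38.Neg Pool.Agent.helper55.NT

/-- the ternary input -/
def LBM_a {n m : ℕ} (b : Bool) (x : Fin m → Bool) : Fin n → Option Bool := fun i =>
  if h : (i : ℕ) < m then (if x ⟨i, h⟩ = !b then none else some b) else some false

def LBM_P {n m : ℕ} : Fin n → Fn m := fun i =>
  if h : (i : ℕ) < m then (fun x => x ⟨i, h⟩) else fun _ => false

def LBM_Q {n m : ℕ} (b : Bool) : Fin n → Fn m := fun i =>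
  if _h : (i : ℕ) < m then (fun _ => !b) else fun _ => true

lemma LBM_hP {n m : ℕ} (b : Bool) (x : Fin m → Bool) (i : Fin n) :
    LBM_P i x = rl (!b) (LBM_a b x i) := by
  unfold LBM_P LBM_a
  split_ifs with h h'
  · simp [rl, h']
  · cases b <;> simp_all [rl]
  · rfl

lemma LBM_hQ {n m : ℕ} (b : Bool) (x : Fin m → Bool) (i : Fin n) :
    LBM_Q b i x = rl' (!b) (LBM_a b x i) := by
  unfold LBM_Q LBM_a
  split_ifs with h h'
  · simp [rl']
  · cases b <;> simp [rl']
  · rfl

lemma LBM_unk {n m : ℕ} (hmn : m ≤ n) (b : Bool) (x : Fin m → Bool) :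
    unk (LBM_a (n := n) b x) ≤ m := by
  unfold unk
  calc (Finset.univ.filter fun i : Fin n => LBM_a b x i = none).card
      ≤ ((Finset.univ : Finset (Fin m)).image fun i => Fin.castLE hmn i).card := by
        refine Finset.card_le_card fun i hi => ?_
        simp only [Finset.mem_filter, Finset.mem_univ, true_and] at hi
        unfold LBM_a at hi
        split_ifs at hi with h h'
        rw [Finset.mem_image]
        exact ⟨⟨i, h⟩, Finset.mem_univ _, by ext; simp⟩
    _ ≤ (Finset.univ : Finset (Fin m)).card := Finset.card_image_le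
    _ = m := by simp

lemma LBM_rel {n m s : ℕ} (b : Bool) (C : Circuit n s) (o : Fin (n + s)) :
    Rel (n := m) ∅ (2 + 2 * s) 0
      {fun x => (dval C (fun i => LBM_P i x) (fun i => LBM_Q b i x) o).1} := by
  have h1 : Rel (n := m) ∅ (1 + 1) (0 + 0) ({fun _ => false} ∪ {fun _ => true}) :=
    (Rel.const ∅ false).union (Rel.const ∅ true)
  have h2 : Rel (n := m) (∅ ∪ ({fun _ => false} ∪ {fun _ => true})) 0 0
      (Set.range (LBM_P (n := n)) ∪ Set.range (LBM_Q (n := n) b)) := by
    intro L q hL hF
    refine ⟨L, q, hL, by omega, by omega, fun _ h => h, ?_⟩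
    have hc : ∀ c : Bool, Op L (fun _ : Fin m → Bool => c) := by
      intro c
      cases c
      · exact hF _ (Or.inr (Or.inl rfl))
      · exact hF _ (Or.inr (Or.inr rfl))
    rintro g (⟨i, rfl⟩ | ⟨i, rfl⟩)
    · unfold LBM_P
      split_ifs with h
      · exact Or.inr ⟨⟨i, h⟩, rfl⟩
      · exact hc false
    · unfold LBM_Q
      split_ifs with h
      · exact hc _
      · exact hc true
  have h3 := (h1.trans' h2).trans' ((Rel.dual C (LBM_P (n := n)) (LBM_Q (n := n) b)).mono
    Set.subset_union_right le_rfl le_rfl le_rfl)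
  refine h3.mono le_rfl ?_ (by omega) (by omega)
  rintro g rfl
  exact Or.inl ⟨o, rfl⟩

theorem LBM (h1 : V3_stmt) : LBM_stmt := by
  intro b n m s k hmn hmk C o f hf hC hz
  obtain ⟨s', hs', C', o', hnc, hval⟩ := (LBM_rel (n := n) (m := m) b C o).toCircuit
  refine ⟨s', by omega, C', o', by omega, fun x => ?_⟩
  have h2 : C'.val x o' = rl (!b) (val3 C (LBM_a b x) o) := by
    rw [hval x]
    have h3 := (h1 n s C).2.1 (!b) (LBM_a b x) o
    have h4 : (fun i => LBM_P i x) = fun i => rl (!b) (LBM_a (n := n) b x i) := by
      funext i; exact LBM_hP b x i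
    have h5 : (fun i => LBM_Q b i x) = fun i => rl' (!b) (LBM_a (n := n) b x i) := by
      funext i; exact LBM_hQ b x i
    rw [h4, h5, h3]
  -- a completion
  have hcomp : Compl (LBM_a (n := n) b x) (fun i => if h : (i : ℕ) < m then x ⟨i, h⟩ else false) := by
    intro i
    unfold LBM_a
    split_ifs with h h'
    · exact Or.inl rfl
    · right
      cases b <;> simp_all
    · right
      simp only [dif_neg h]
  have hz0 : ∀ z : Fin n → Bool, Compl (LBM_a b x) z → ∀ i : Fin m,
      x i = b → z (Fin.castLE hmn i) = b := by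
    intro z hz i hi
    have h3 := hz (Fin.castLE hmn i)
    unfold LBM_a at h3
    have h4 : ((Fin.castLE hmn i : Fin n) : ℕ) < m := by simp
    rw [dif_pos h4] at h3
    have h5 : x ⟨((Fin.castLE hmn i : Fin n) : ℕ), h4⟩ = b := by
      simpa using hi
    rw [h5] at h3
    cases b <;> simp_all
  rw [h2]
  have key1 : (∀ z : Fin n → Bool, Compl (LBM_a b x) z → C.val z o = b) →
      rl (!b) (val3 C (LBM_a b x) o) = b := by
    intro h
    rw [hz _ ((LBM_unk hmn b x).trans hmk) h]
    rfl
  have hcast : (fun x : Fin n → Bool => f fun i => x (Fin.castLE hmn i))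
      (fun i : Fin n => if h : (i : ℕ) < m then x ⟨i, h⟩ else false) = f x := by
    have h3 : (fun i : Fin m => (fun i : Fin n => if h : (i : ℕ) < m then x ⟨i, h⟩ else false)
      (Fin.castLE hmn i)) = x := by
      funext i
      simp
    exact congrArg f h3
  have key2 : C.val (fun i => if h : (i : ℕ) < m then x ⟨i, h⟩ else false) o = (!b) →
      rl (!b) (val3 C (LBM_a b x) o) = !b := by
    intro h
    rcases (h1 n s C).2.2 _ _ hcomp o with h3 | h3
    · rw [h3]; rfl
    · rw [h3, h]; rfl
  cases b with
  | false =>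
    constructor
    · intro h
      by_contra hfx
      rw [key1 ?_] at h
      · simp at h
      · intro z hz'
        rw [Bool.eq_false_iff]
        intro h3
        have h4 := (hC z).1 h3
        refine hfx (hf (fun i => ?_) h4)
        by_cases h5 : x i = false
        · rw [hz0 z hz' i h5]
          exact Bool.false_le _
        · rw [Bool.eq_true_of_not_eq_false h5]
          exact Bool.le_true _
    · intro h
      have h3 := key2 ?_
      · exact h3
      · have h4 := (hC (fun i => if h : (i : ℕ) < m then x ⟨i, h⟩ else false)).2 (by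
          rw [hcast]; exact h)
        exact h4
  | true =>
    constructor
    · intro h
      by_contra hfx
      have h3 := key2 ?_
      · rw [h3] at h
        simp at h
      · rw [Bool.not_true, Bool.eq_false_iff]
        intro h4
        have h5 := (hC _).1 h4
        rw [hcast] at h5
        exact hfx h5
    · intro h
      exact key1 fun z hz' => (hC z).2 (hf (fun i => by
        by_cases h5 : x i = true
        · rw [hz0 z hz' i h5]
          exact Bool.le_true _
        · rw [Bool.eq_false_of_not_eq_true h5]
          exact Bool.false_le _) h)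

end Pool.Agent.helper88.HT
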