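import Pool.Agent.helper88.HT.Spec

/-! Row ht:LIT. -/

set_option autoImplicit false

namespace Pool.Agent.helper88.HT

open Pool.Agent.helper38.Neg Pool.Agent.helper55.NT

lemma LIT_and (β : Bool) (u v : Option Bool) : rl β (and3 u v) = (rl β u && rl β v) := by
  rcases u with _ | _ | _ <;> rcases v with _ | _ | _ <;> cases β <;> rfl

lemma LIT_or (β : Bool) (u v : Option Bool) : rl β (or3 u v) = (rl β u || rl β v) := by
  rcases u with _ | _ | _ <;> rcases v with _ | _ | _ <;> cases β <;> rfl

lemma LIT_not (β : Bool) (u : Option Bool) : rl β (not3 u) = rl' β u := by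
  rcases u with _ | _ | _ <;> cases β <;> rfl

lemma LIT_last {n s : ℕ} (C : Circuit n s) (g : Gate (n + s)) (a : Fin n → Option Bool) :
    val3 (Circuit.snoc C g) a (Fin.last (n + s)) = geval3 (val3 C a) g :=
  Fin.snoc_last (α := fun _ => Option Bool) _ _

lemma LIT_cs {n s : ℕ} (C : Circuit n s) (g : Gate (n + s)) (a : Fin n → Option Bool)
    (k : Fin (n + s)) : val3 (Circuit.snoc C g) a (Fin.castSucc k) = val3 C a k :=
  Fin.snoc_castSucc (α := fun _ => Option Bool) _ _ _

lemma LIT_vlast {n s : ℕ} (C : Circuit n s) (g : Gate (n + s)) (x : Fin n → Bool) :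
    (Circuit.snoc C g).val x (Fin.last (n + s)) = g.eval (C.val x) :=
  Fin.snoc_last (α := fun _ => Bool) _ _

lemma LIT_vcs {n s : ℕ} (C : Circuit n s) (g : Gate (n + s)) (x : Fin n → Bool)
    (k : Fin (n + s)) : (Circuit.snoc C g).val x (Fin.castSucc k) = C.val x k :=
  Fin.snoc_castSucc (α := fun _ => Bool) _ _ _

/-- the first NOT gates -/
lemma LIT_nots (n : ℕ) : ∀ j : ℕ, ∀ hj : j ≤ n, ∃ D : Circuit n j, ∀ a : Fin n → Option Bool,
    (∀ i : Fin n, val3 D a (Fin.castAdd j i) = a i) ∧
      ∀ i : Fin j, val3 D a (Fin.natAdd n i) = not3 (a (Fin.castLE hj i)) := by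
  intro j
  induction j with
  | zero =>
    intro hj
    exact ⟨Circuit.nil, fun a => ⟨fun i => rfl, fun i => i.elim0⟩⟩
  | succ j ih =>
    intro hj
    obtain ⟨D, hD⟩ := ih (by omega)
    refine ⟨Circuit.snoc D (Gate.not (Fin.castAdd j ⟨j, hj⟩)), fun a => ⟨fun i => ?_, fun i => ?_⟩⟩
    · exact (LIT_cs D _ a (Fin.castAdd j i)).trans ((hD a).1 i)
    · refine Fin.lastCases ?_ (fun i => ?_) i
      · refine (LIT_last D (Gate.not (Fin.castAdd j ⟨j, hj⟩)) a).trans ?_
        exact congrArg not3 ((hD a).1 _)
      · exact (LIT_cs D _ a (Fin.natAdd n i)).trans ((hD a).2 i)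

lemma LIT_aux (n : ℕ) : ∀ (s : ℕ) (M : Circuit (n + n) s), M.notCount = 0 →
    ∃ (C' : Circuit n (n + s)) (w : Fin (n + n + s) → Fin (n + (n + s))),
      ∀ (β : Bool) (a : Fin n → Option Bool) (k : Fin (n + n + s)),
        rl β (val3 C' a (w k)) =
          M.val (Fin.append (fun i => rl β (a i)) fun i => rl' β (a i)) k := by
  intro s M
  induction M with
  | nil =>
    intro _
    obtain ⟨D, hD⟩ := LIT_nots n n le_rfl
    have base : ∀ (β : Bool) (a : Fin n → Option Bool) (k : Fin (n + n)),
        rl β (val3 D a k) = Fin.append (fun i => rl β (a i)) (fun i => rl' β (a i)) k := by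
      intro β a k
      refine Fin.addCases (fun i => ?_) (fun i => ?_) k
      · rw [Fin.append_left, (hD a).1 i]
      · rw [Fin.append_right, (hD a).2 i, LIT_not]
        rfl
    exact ⟨D, fun k => k, base⟩
  | @snoc s M g ih =>
    intro hM
    have hM0 : M.notCount = 0 := by
      cases g <;> simp_all [Circuit.notCount]
    obtain ⟨C0, w, hw⟩ := ih hM0
    have key : ∀ g' : Gate (n + (n + s)), (∀ (β : Bool) (a : Fin n → Option Bool),
        rl β (geval3 (val3 C0 a) g') =
          g.eval (M.val (Fin.append (fun i => rl β (a i)) fun i => rl' β (a i)))) →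
        ∃ (C' : Circuit n (n + (s + 1))) (w : Fin (n + n + (s + 1)) → Fin (n + (n + (s + 1)))),
          ∀ (β : Bool) (a : Fin n → Option Bool) (k : Fin (n + n + (s + 1))),
            rl β (val3 C' a (w k)) = (Circuit.snoc M g).val
              (Fin.append (fun i => rl β (a i)) fun i => rl' β (a i)) k := by
      intro g' hg'
      let w' : Fin (n + n + s + 1) → Fin (n + (n + s) + 1) :=
        Fin.snoc (α := fun _ => Fin (n + (n + s) + 1)) (fun k => Fin.castSucc (w k))
          (Fin.last (n + (n + s)))
      have hl : w' (Fin.last (n + n + s)) = Fin.last (n + (n + s)) :=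
        Fin.snoc_last (α := fun _ => Fin (n + (n + s) + 1)) _ _
      have hc : ∀ k : Fin (n + n + s), w' (Fin.castSucc k) = Fin.castSucc (w k) := fun k =>
        Fin.snoc_castSucc (α := fun _ => Fin (n + (n + s) + 1)) _ _ _
      have main : ∀ (β : Bool) (a : Fin n → Option Bool) (k : Fin (n + n + s + 1)),
          rl β (val3 (Circuit.snoc C0 g') a (w' k)) = (Circuit.snoc M g).val
              (Fin.append (fun i => rl β (a i)) fun i => rl' β (a i)) k := by
        intro β a k
        refine Fin.lastCases ?_ (fun k => ?_) k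
        · rw [hl]
          refine (congrArg (rl β) (LIT_last C0 g' a)).trans ((hg' β a).trans ?_)
          exact (LIT_vlast M g _).symm
        · rw [hc]
          refine (congrArg (rl β) (LIT_cs C0 g' a (w k))).trans ((hw β a k).trans ?_)
          exact (LIT_vcs M g _ k).symm
      exact ⟨Circuit.snoc C0 g', w', main⟩
    cases g with
    | const b => exact key (Gate.const b) fun β a => rfl
    | and i j =>
      refine key (Gate.and (w i) (w j)) fun β a => ?_
      simp only [geval3, Gate.eval, LIT_and, hw]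
    | or i j =>
      refine key (Gate.or (w i) (w j)) fun β a => ?_
      simp only [geval3, Gate.eval, LIT_or, hw]
    | not i => simp [Circuit.notCount] at hM

theorem LIT : LIT_stmt := by
  intro n s M o hM
  obtain ⟨C', w, hw⟩ := LIT_aux n s M hM
  exact ⟨C', w o, fun β a => hw β a o⟩

end Pool.Agent.helper88.HT
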