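import Pool.Agent.helper88.HT.Spec

/-! Row ht:UP0. -/

set_option autoImplicit false

namespace Pool.Agent.helper88.HT

open Pool.Agent.helper38.Neg Pool.Agent.helper55.NT

lemma UP0_t (n k : ℕ) : (n + 1) ^ k < 2 ^ (k * (lg n + 1) + 1) := by
  have h1 : n + 1 ≤ 2 ^ (lg n + 1) := by
    have := lt_two_pow_lg n
    omega
  calc (n + 1) ^ k ≤ (2 ^ (lg n + 1)) ^ k := Nat.pow_le_pow_left h1 k
    _ = 2 ^ (k * (lg n + 1)) := by rw [← pow_mul, mul_comm]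
    _ < 2 ^ (k * (lg n + 1) + 1) := Nat.pow_lt_pow_right (by norm_num) (by omega)

lemma UP0_size (n s k l t : ℕ) (ht : 1 ≤ t) :
    (2 * n + 2) ^ l * (t * (2 ^ (k + 2) * (5 * n ^ 2 + s + 1)) + t + 1 + 6) ≤
      t * 2 ^ (k + 2) * (2 * n + 2) ^ l * (5 * n ^ 2 + s + 4) := by
  have h1 : 4 ≤ 2 ^ (k + 2) := by
    have : 1 ≤ 2 ^ k := Nat.one_le_two_pow
    rw [pow_add]
    omega
  have h2 : t + 7 ≤ t * 2 ^ (k + 2) * 3 := by nlinarith
  calc (2 * n + 2) ^ l * (t * (2 ^ (k + 2) * (5 * n ^ 2 + s + 1)) + t + 1 + 6)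
      = (2 * n + 2) ^ l * (t * (2 ^ (k + 2) * (5 * n ^ 2 + s + 1)) + (t + 7)) := by ring
    _ ≤ (2 * n + 2) ^ l * (t * (2 ^ (k + 2) * (5 * n ^ 2 + s + 1)) + t * 2 ^ (k + 2) * 3) := by
        gcongr
    _ = t * 2 ^ (k + 2) * (2 * n + 2) ^ l * (5 * n ^ 2 + s + 4) := by ring

theorem UP0 (h1 : HF_stmt) (h2 : FMX_stmt) (h3 : TOX_stmt) (h4 : FMR_stmt) (h5 : TOR_stmt)
    (h6 : FIN_stmt) : UP0_stmt := by
  intro n s k l C o
  obtain ⟨Hs, hHs⟩ := h1 n k (k * (lg n + 1) + 1) (UP0_t n k)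
  obtain ⟨e1, e2⟩ := h2 n s k _ C o Hs (by omega) hHs
  obtain ⟨f1, f2, f3⟩ := h3 n k l (FAM C o Hs) _ e1 e2
  let P : Fin n → Fn (n + n) := fun i z => z (Fin.castAdd n i)
  let Q : Fin n → Fn (n + n) := fun i z => z (Fin.natAdd n i)
  have hrel := h5 n (n + n) l _ (FAM C o Hs) (fun P Q => h4 n (n + n) s k _ C o Hs P Q) P Q
  have h0 : Rel ∅ 0 0 (Set.range P ∪ Set.range Q) := by
    intro L q hL _
    refine ⟨L, q, hL, by omega, by omega, fun _ h => h, ?_⟩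
    rintro g (⟨i, rfl⟩ | ⟨i, rfl⟩)
    · exact Or.inr ⟨Fin.castAdd n i, rfl⟩
    · exact Or.inr ⟨Fin.natAdd n i, rfl⟩
  obtain ⟨s', hs', M, oM, hnc, hM⟩ :=
    (h0.trans' (hrel.mono Set.subset_union_right le_rfl le_rfl le_rfl)).toCircuit
  obtain ⟨C', o', g1, g2, g3⟩ := h6 n s' k l M oM (TOT l (FAM C o Hs)) (fun x => C.val x o)
    (by omega) (by
      intro p q
      rw [hM]
      congr 1
      · funext i
        exact Fin.append_left p q i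
      · funext i
        exact Fin.append_right p q i) f1 f2 f3
  refine ⟨n + s', ?_, C', o', g1, g2, g3⟩
  have hsz := UP0_size n s k l (k * (lg n + 1) + 1) (by omega)
  have hs2 : s' ≤ (2 * n + 2) ^ l * ((k * (lg n + 1) + 1) * (2 ^ (k + 2) *
      (5 * n ^ 2 + s + 1)) + (k * (lg n + 1) + 1) + 1 + 6) := by
    refine hs'.trans (le_of_eq ?_)
    ring
  omega

end Pool.Agent.helper88.HT
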