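import Pool.Agent.helper88.HT.Spec

/-! Row ht:V3. -/

set_option autoImplicit false

namespace Pool.Agent.helper88.HT

open Pool.Agent.helper38.Neg Pool.Agent.helper55.NT

lemma V3_exact {n s : ℕ} (C : Circuit n s) (x : Fin n → Bool) :
    ∀ k : Fin (n + s), val3 C (fun i => some (x i)) k = some (C.val x k) := by
  induction C with
  | nil => intro k; rfl
  | @snoc s C g ih =>
    intro k
    refine Fin.lastCases ?_ (fun k => ?_) k
    · simp only [Circuit.val, val3, Fin.snoc_last]
      cases g with
      | const b => rfl
      | and i j =>
        simp only [Gate.eval, geval3, ih]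
        cases C.val x i <;> cases C.val x j <;> rfl
      | or i j =>
        simp only [Gate.eval, geval3, ih]
        cases C.val x i <;> cases C.val x j <;> rfl
      | not i =>
        simp only [Gate.eval, geval3, ih]
        rfl
    · simp only [Circuit.val, val3, Fin.snoc_castSucc]
      exact ih k

lemma V3_and (β : Bool) (u v : Option Bool) :
    (rl β u && rl β v, rl' β u || rl' β v) = (rl β (and3 u v), rl' β (and3 u v)) := by
  rcases u with _ | _ | _ <;> rcases v with _ | _ | _ <;> cases β <;> rfl

lemma V3_or (β : Bool) (u v : Option Bool) :
    (rl β u || rl β v, rl' β u && rl' β v) = (rl β (or3 u v), rl' β (or3 u v)) := by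
  rcases u with _ | _ | _ <;> rcases v with _ | _ | _ <;> cases β <;> rfl

lemma V3_not (β : Bool) (u : Option Bool) :
    (rl' β u, rl β u) = (rl β (not3 u), rl' β (not3 u)) := by
  rcases u with _ | _ | _ <;> cases β <;> rfl

lemma V3_rails {n s : ℕ} (C : Circuit n s) (β : Bool) (a : Fin n → Option Bool) :
    ∀ k : Fin (n + s), dval C (fun i => rl β (a i)) (fun i => rl' β (a i)) k =
      (rl β (val3 C a k), rl' β (val3 C a k)) := by
  induction C with
  | nil => intro k; rfl
  | @snoc s C g ih =>
    intro k
    refine Fin.lastCases ?_ (fun k => ?_) k
    · simp only [dval, val3, Fin.snoc_last]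
      cases g with
      | const b => rfl
      | and i j =>
        simp only [gdual, geval3, ih]
        exact V3_and β _ _
      | or i j =>
        simp only [gdual, geval3, ih]
        exact V3_or β _ _
      | not i =>
        simp only [gdual, geval3, ih]
        exact V3_not β _
    · simp only [dval, val3, Fin.snoc_castSucc]
      exact ih k

lemma V3_gate_and (u v : Option Bool) (b c : Bool) (hu : u = none ∨ u = some b)
    (hv : v = none ∨ v = some c) : and3 u v = none ∨ and3 u v = some (b && c) := by
  rcases hu with rfl | rfl <;> rcases hv with rfl | rfl <;> cases b <;> cases c <;>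
    simp [and3]

lemma V3_gate_or (u v : Option Bool) (b c : Bool) (hu : u = none ∨ u = some b)
    (hv : v = none ∨ v = some c) : or3 u v = none ∨ or3 u v = some (b || c) := by
  rcases hu with rfl | rfl <;> rcases hv with rfl | rfl <;> cases b <;> cases c <;>
    simp [or3]

lemma V3_compl {n s : ℕ} (C : Circuit n s) (a : Fin n → Option Bool) (x : Fin n → Bool)
    (h : Compl a x) : ∀ k : Fin (n + s), val3 C a k = none ∨ val3 C a k = some (C.val x k) := by
  induction C with
  | nil => exact h
  | @snoc s C g ih =>
    intro k
    refine Fin.lastCases ?_ (fun k => ?_) k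
    · simp only [Circuit.val, val3, Fin.snoc_last]
      cases g with
      | const b => exact Or.inr rfl
      | and i j => exact V3_gate_and _ _ _ _ (ih i) (ih j)
      | or i j => exact V3_gate_or _ _ _ _ (ih i) (ih j)
      | not i =>
        simp only [Gate.eval, geval3]
        rcases ih i with h1 | h1
        · rw [h1]; exact Or.inl rfl
        · rw [h1]; exact Or.inr rfl
    · simp only [Circuit.val, val3, Fin.snoc_castSucc]
      exact ih k

theorem V3 : V3_stmt := fun _ _ C =>
  ⟨fun x k => V3_exact C x k, fun β a k => V3_rails C β a k, fun a x h k => V3_compl C a x h k⟩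

end Pool.Agent.helper88.HT
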