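import Pool.Agent.helper16.HT.PH0
import Pool.Agent.helper16.HT.TOX
import Pool.Agent.helper17.HT.DP
import Pool.Agent.helper21.HT.REN
import Pool.Agent.helper23.HT.DBL
import Pool.Agent.helper24.HT.EXR
import Pool.Agent.helper29.HT.NEG
import Pool.Agent.helper35.HT.PHX
import Pool.Agent.helper49.HT.HC
import Pool.Agent.helper52.HT.UP
import Pool.Agent.helper71.HT.GRO
import Pool.Agent.helper80.HT.PAD
import Pool.Agent.helper80.HT.POL
import Pool.Agent.helper82.HT.TOR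
import Pool.Agent.helper84.HT.CNT
import Pool.Agent.helper84.HT.FMR
import Pool.Agent.helper84.HT.HF
import Pool.Agent.helper84.HT.HG
import Pool.Agent.helper84.HT.OAS
import Pool.Agent.helper84.HT.PHR
import Pool.Agent.helper88.HT.LBM
import Pool.Agent.helper88.HT.LIT
import Pool.Agent.helper88.HT.UP0
import Pool.Agent.helper88.HT.V3
import Pool.Agent.helper9.HT.LBL
import Pool.Agent.helper91.HT.QCR
import Pool.Agent.helper92.HT.FIN
import Pool.Agent.helper96.HT.FMX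
import Pool.Agent.helper96.HT.PCR

/-!
Assembly of project HT.
-/

set_option autoImplicit false

namespace Pool.Agent.helper88.HT

open Pool.Agent.helper38.Neg Pool.Agent.helper55.NT

/-- The conversion. -/
theorem up : UP_stmt :=
  UP (UP0 (HF (HG HC) CNT) (FMX PHX PH0) TOX (FMR (PHR (EXR DP) OAS) OAS) (TOR OAS CNT)
    (FIN V3 LIT)) NEG V3

theorem lbl : LBL_stmt := LBL (LBM V3)

theorem padd : PAD_stmt := PAD REN

theorem pol : POL_stmt := POL (GRO lbl) padd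

lemma pad_mono (k : ℕ → ℕ) (A : Lang) (hA : ∀ n, Monotone (A n)) (n : ℕ) : Monotone (pad k A n) :=
  fun _ _ h => hA _ fun _ => h _

/-- The language for the lower bound. -/
theorem lower (k : ℕ → ℕ) : ∃ A : Lang, InNPPoly A ∧ (∀ n, Monotone (A n)) ∧
    ∀ (b : Bool) (n s : ℕ), 2 ≤ min (k n) n → ∀ (C : Circuit n s) (o : Fin (n + s)),
      C.Computes o (A n) → HazardFree b (k n) C o →
        (2 : ℝ) ^ ((1 / 64 : ℝ) * (((min (k n) n : ℕ) : ℝ) /
          Real.log ((min (k n) n : ℕ) : ℝ)) ^ ((1 : ℝ) / 4)) ≤ 2 * s + 4 :=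
  ⟨pad k lang, padd k lang lang_inNPPoly, pad_mono k lang lang_mono,
    fun b n s hn C o hC hH => lbl b k n s hn C o hC hH⟩

lemma inPPoly_of (b : Bool) (k l : ℕ → ℕ) (A : Lang) (h : PolyHF b k l A) : InPPoly A := by
  obtain ⟨p, hp⟩ := h
  refine ⟨p, fun n => ?_⟩
  obtain ⟨s, hs, C, o, hC, -, -⟩ := hp n
  exact ⟨s, hs, C, o, hC⟩

lemma inQuasi_of (b : Bool) (k l : ℕ → ℕ) (A : Lang) (h : QuasiHF b k l A) : InQuasi A := by
  obtain ⟨c, hc⟩ := h
  refine ⟨c, fun n => ?_⟩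
  obtain ⟨s, hs, C, o, hC, -, -⟩ := hc n
  exact ⟨s, hs, C, o, hC⟩

/-- The criterion for polynomial size. -/
theorem poly_tfae (b : Bool) (k : ℕ → ℕ) (l : ℕ) (hk : ∃ c, ∀ n, k n ≤ c * lg n) :
    [∀ A, InNPPoly A → InPPoly A,
      ∀ A, InNPPoly A → PolyHF b k (fun _ => l) A,
      ∀ A, InNPPoly A → (∀ n, Monotone (A n)) → PolyHF b k (fun _ => l) A].TFAE := by
  obtain ⟨c, hc⟩ := hk
  tfae_have 1 → 2 := fun h A hA => PCR up b k l c hc A (h A hA)
  tfae_have 2 → 3 := fun h A hA _ => h A hA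
  tfae_have 3 → 1 := fun h => DBL.1 fun A hA hm => inPPoly_of b k _ A (h A hA hm)
  tfae_finish

/-- The criterion for quasi-polynomial size. -/
theorem quasi_tfae (b : Bool) (k l : ℕ → ℕ) :
    [(∃ c, ∀ n, min (k n) n ≤ c * lg n ^ c ∧ min (l n) n ≤ c * lg n ^ c) ∧
        ∀ A, InNPPoly A → InQuasi A,
      ∀ A, InNPPoly A → QuasiHF b k l A,
      ∀ A, InNPPoly A → (∀ n, Monotone (A n)) → QuasiHF b k l A].TFAE := by
  tfae_have 1 → 2 := by
    rintro ⟨⟨c, hc⟩, h⟩ A hA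
    exact QCR up b k l c (fun n => (hc n).1) (fun n => (hc n).2) A (h A hA)
  tfae_have 2 → 3 := fun h A hA _ => h A hA
  tfae_have 3 → 1 := by
    intro h
    obtain ⟨d, hd1, hd2⟩ := (pol b k l).2 h
    exact ⟨⟨d, fun n => ⟨hd1 n, hd2 n⟩⟩,
      DBL.2 fun A hA hm => inQuasi_of b k l A (h A hA hm)⟩
  tfae_finish

end Pool.Agent.helper88.HT
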