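import Pool.Agent.helper88.HT.Defs

/-!
# Project HT (MP_069684_lc, HazardThreshold), architect helper88

Every row is a `Prop` below with its proof in the docstring. File
`Pool/Agent/<seat>/HT/<ROW>.lean`, `import Pool.Agent.helper88.HT.Spec`, namespace
`Pool.Agent.helper88.HT`, `theorem <ROW> (h1 : <OTHER>_stmt) ... : <ROW>_stmt` with hypotheses the
rows named after (from ...). Auxiliary lemmas: names starting with the row name. No `native_decide`,
no double quotes. The size calculus `Rel F m r G` (if the functions `F` are available, `G` can be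
computed with `m` more gates, `r` of them NOT gates) is in `Pool/Agent/helper55/NT/SL.lean`
(`Rel.mono, Rel.sub, Rel.var, Rel.const, Rel.and, Rel.or, Rel.not, Rel.trans, Rel.trans', Rel.union,
Rel.biUnion, Rel.toCircuit`), the dual rail evaluation `dval` in `Pool/Agent/helper55/NT/Dual.lean`
(`dval_le, dval_ge, Rel.dual`).

THE PAPER PROOF. Rails of a ternary input `a`: `p i` = bit `i` may be 1, `q i` = bit `i` may be 0
(`β = true` below), or `p i` = bit `i` is 1, `q i` = bit `i` is 0 (`β = false`). The circuit `C`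
gives the monotone function `F(p, q) = (dval C p q o).1`: exact rails of `x` give `C(x)`. For
`H : Fin n → (ZMod 2)^(k+1)` and a syndrome `σ` let `ex σ i b` = there is `y` allowed by `(p, q)`
with `y i = b` and `∑_(y i = 1) H i = σ`: monotone in `(p, q)`, small circuits by dynamic
programming. `PHI` = OR over `σ` of `F(ex σ . true, ex σ . false)`. If the set `S` of unknown bits
(both rails 1) is independent under `H` then at most one `y` has the syndrome `σ` and the new rails
are exact or 0: `PHI` = OR of `C(y)` over the completions `y`. On exact inputs `PHI = C(x)` always.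
`FAM` = AND of `PHI` over a family of `k (lg n + 1) + 1` matrices `H` such that every `S` with at
most `k` elements is independent under one of them: no 0-hazard on `≤ k` bits. `TOT` = OR over sets
`T` with at most `l` elements of AND over all ways to fix the bits in `T`: no 1-hazard on `≤ l`
bits, and still no 0-hazard on `≤ k` bits. Monotone circuits in the rails are circuits in the
literals, and the ternary evaluation of these is the evaluation on the rails.
Lower bound: on the ternary inputs with unknown bits `{i : x i = 1}` and all other bits 0 the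
circuit is the monotone circuit `F(x, 1)`, equal to `f(x)` for monotone `f`.
-/

set_option autoImplicit false

namespace Pool.Agent.helper88.HT

open Pool.Agent.helper38.Neg Pool.Agent.helper55.NT

/-! ## Ternary evaluation -/

/-- first rail of a ternary value (`β = true`: may be 1; `β = false`: is 1) -/
def rl (β : Bool) : Option Bool → Bool
  | none => β
  | some b => b

/-- second rail of a ternary value (`β = true`: may be 0; `β = false`: is 0) -/
def rl' (β : Bool) : Option Bool → Bool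
  | none => β
  | some b => !b

/-- ROW ht:V3. (1) induction on `C`; (2) induction on `C`, cases on the gate, `decide` on the
finitely many values; (3) from (2) and `dval_le` (`z = x`), or by induction. -/
def V3_stmt : Prop := ∀ (n s : ℕ) (C : Circuit n s),
  (∀ (x : Fin n → Bool) (k : Fin (n + s)), val3 C (fun i => some (x i)) k = some (C.val x k)) ∧
  (∀ (β : Bool) (a : Fin n → Option Bool) (k : Fin (n + s)),
    dval C (fun i => rl β (a i)) (fun i => rl' β (a i)) k = (rl β (val3 C a k), rl' β (val3 C a k))) ∧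
  ∀ (a : Fin n → Option Bool) (x : Fin n → Bool), Compl a x → ∀ k : Fin (n + s),
    val3 C a k = none ∨ val3 C a k = some (C.val x k)

/-- ROW ht:LIT. Literals in place of the rails. First the `n` NOT gates, then the gates of `M` with
the input `i` of `M` replaced by the input `i` (`i < n`) or by the NOT gate `i - n`. Induction on `M`
with the statement: there are `C' : Circuit n (n + s)` and `w : Fin (n + n + s) → Fin (n + (n + s))`
with `rl β (val3 C' a (w k)) = M.val (..) k` for all `k`. The case of a NOT gate is excluded by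
`notCount = 0`. -/
def LIT_stmt : Prop := ∀ (n s : ℕ) (M : Circuit (n + n) s) (o : Fin (n + n + s)), M.notCount = 0 →
  ∃ (C' : Circuit n (n + s)) (o' : Fin (n + (n + s))), ∀ (β : Bool) (a : Fin n → Option Bool),
    rl β (val3 C' a o') = M.val (Fin.append (fun i => rl β (a i)) fun i => rl' β (a i)) o

/-- ROW ht:NEG. `C' = snoc C (Gate.not o)`. -/
def NEG_stmt : Prop := ∀ (n s : ℕ) (C : Circuit n s) (o : Fin (n + s)),
  ∃ (C' : Circuit n (s + 1)) (o' : Fin (n + (s + 1))),
    (∀ x, C'.val x o' = !(C.val x o)) ∧ ∀ a, val3 C' a o' = not3 (val3 C a o)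

/-! ## Rails, syndromes, the construction -/

/-- `y` is allowed by the rails `p` (1 allowed), `q` (0 allowed). -/
def Al {n : ℕ} (p q y : Fin n → Bool) : Prop :=
  ∀ i, (y i = true → p i = true) ∧ (y i = false → q i = true)

/-- the group of the syndromes -/
abbrev Gk (k : ℕ) : Type := Fin (k + 1) → ZMod 2

/-- the syndrome of `y` -/
def syn {n k : ℕ} (H : Fin n → Gk k) (y : Fin n → Bool) : Gk k := ∑ i, if y i = true then H i else 0

/-- `S` is independent under `H` -/
def Good {n k : ℕ} (H : Fin n → Gk k) (S : Finset (Fin n)) : Prop :=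
  ∀ T ⊆ S, T.Nonempty → ∑ i ∈ T, H i ≠ 0

open Classical in
/-- the new rails for the syndrome `σ` -/
noncomputable def ex {n k : ℕ} (H : Fin n → Gk k) (p q : Fin n → Bool) (σ : Gk k) (b : Bool)
    (i : Fin n) : Bool := decide (∃ y, Al p q y ∧ y i = b ∧ syn H y = σ)

open Classical in
/-- OR over all syndromes -/
noncomputable def PHI {n s k : ℕ} (C : Circuit n s) (o : Fin (n + s)) (H : Fin n → Gk k)
    (p q : Fin n → Bool) : Bool :=
  decide (∃ σ, (dval C (ex H p q σ true) (ex H p q σ false) o).1 = true)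

open Classical in
/-- AND over a family -/
noncomputable def FAM {n s k t : ℕ} (C : Circuit n s) (o : Fin (n + s)) (Hs : Fin t → Fin n → Gk k)
    (p q : Fin n → Bool) : Bool := decide (∀ j, PHI C o (Hs j) p q = true)

open Classical in
/-- OR over `T`, AND over the values `U` on `T` -/
noncomputable def TOT {n : ℕ} (l : ℕ) (Φ : (Fin n → Bool) → (Fin n → Bool) → Bool)
    (p q : Fin n → Bool) : Bool :=
  decide (∃ T : Finset (Fin n), T.card ≤ l ∧ ∀ U ⊆ T,
    Φ (fun j => if j ∈ T then decide (j ∈ U) else p j)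
      (fun j => if j ∈ T then decide (j ∉ U) else q j) = true)

/-- `Φ` computes `g` on exact rails -/
def Exa {n : ℕ} (Φ : (Fin n → Bool) → (Fin n → Bool) → Bool) (g : Fn n) : Prop :=
  ∀ x, Φ x (fun i => !(x i)) = g x

/-- no 0-hazards -/
def Over {n : ℕ} (k : ℕ) (Φ : (Fin n → Bool) → (Fin n → Bool) → Bool) (g : Fn n) : Prop :=
  ∀ p q : Fin n → Bool, (∀ i, p i = true ∨ q i = true) →
    (Finset.univ.filter fun i => p i = true ∧ q i = true).card ≤ k →
    (∀ y, Al p q y → g y = false) → Φ p q = false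

/-- no 1-hazards -/
def Under {n : ℕ} (l : ℕ) (Φ : (Fin n → Bool) → (Fin n → Bool) → Bool) (g : Fn n) : Prop :=
  ∀ p q : Fin n → Bool, (∀ i, p i = false ∨ q i = false) →
    (Finset.univ.filter fun i => p i = false ∧ q i = false).card ≤ l →
    (∀ y : Fin n → Bool, (∀ i, (p i = true → y i = true) ∧ (q i = true → y i = false)) →
      g y = true) → Φ p q = true

/-! ## Correctness -/

/-- ROW ht:PHX. `Al x (!x) y` iff `y = x`. If `PHI` is true for `σ`, the rails `ex ..` are below
the exact rails of `x`: `dval_ge` with `z = x`. Conversely `σ = syn H x`: the rails are the exact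
rails of `x`, `dval_le`. -/
def PHX_stmt : Prop := ∀ (n s k : ℕ) (C : Circuit n s) (o : Fin (n + s)) (H : Fin n → Gk k),
  Exa (PHI C o H) fun x => C.val x o

/-- ROW ht:PH0. Suppose `PHI` is true for `σ`. If no allowed `y` has the syndrome `σ` the rails are
0: take any allowed `z` (there is one: `p i ∨ q i`) and `dval_ge`: `C(z) = 1`. Otherwise let `z` be
allowed with syndrome `σ`. It is the only one: if `y` is another, then
`T = {i : y i ≠ z i}` is nonempty, contained in `{p ∧ q}`, and `∑_T H = syn y - syn z = 0`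
(characteristic 2). So the rails are the exact rails of `z`: `dval_ge`. -/
def PH0_stmt : Prop := ∀ (n s k : ℕ) (C : Circuit n s) (o : Fin (n + s)) (H : Fin n → Gk k)
  (p q : Fin n → Bool), (∀ i, p i = true ∨ q i = true) →
    Good H (Finset.univ.filter fun i => p i = true ∧ q i = true) →
    (∀ y, Al p q y → C.val y o = false) → PHI C o H p q = false

/-- ROW ht:FMX (from PHX, PH0). -/
def FMX_stmt : Prop := ∀ (n s k t : ℕ) (C : Circuit n s) (o : Fin (n + s))
  (Hs : Fin t → Fin n → Gk k), 0 < t →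
    (∀ S : Finset (Fin n), S.card ≤ k → ∃ j, Good (Hs j) S) →
    Exa (FAM C o Hs) (fun x => C.val x o) ∧ Over k (FAM C o Hs) fun x => C.val x o

/-- ROW ht:TOX. Exact `x`: `T = ∅` gives `g x ≤ TOT`; conversely for `T` take
`U = {i ∈ T : x i}`: the modified rails are those of `x`. Over: for `T` take `U = {i ∈ T : p i}`;
the modified rails are `(p, q')` with `q' i = !(p i)` on `T`, `q' = q` otherwise, so `Φ = 0` by
`Over` (fewer unknown bits, fewer allowed `y`). Under: `T = {i : p i = q i = 0}`; all modified rails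
are the exact rails of completions. -/
def TOX_stmt : Prop := ∀ (n k l : ℕ) (Φ : (Fin n → Bool) → (Fin n → Bool) → Bool) (g : Fn n),
  Exa Φ g → Over k Φ g → Exa (TOT l Φ) g ∧ Over k (TOT l Φ) g ∧ Under l (TOT l Φ) g

/-- ROW ht:FIN (from V3, LIT). `a` exact: `rl β (some b) = b`. `b = 0`: `rl true v = false` implies
`v = some false`; `b = 1`: `rl false v = true` implies `v = some true`. -/
def FIN_stmt : Prop := ∀ (n s k l : ℕ) (M : Circuit (n + n) s) (o : Fin (n + n + s))
  (Φ : (Fin n → Bool) → (Fin n → Bool) → Bool) (g : Fn n), M.notCount = 0 →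
    (∀ p q, M.val (Fin.append p q) o = Φ p q) → Exa Φ g → Over k Φ g → Under l Φ g →
    ∃ (C' : Circuit n (n + s)) (o' : Fin (n + (n + s))), (∀ x, C'.val x o' = g x) ∧
      HazardFree false k C' o' ∧ HazardFree true l C' o'

/-! ## Size -/

/-- ROW ht:OAS. Insert one index at a time, `Rel.const`, `Rel.or`, `Rel.and`. -/
def OAS_stmt : Prop := ∀ (m : ℕ) (ι : Type) (S : Finset ι) (g : ι → Fn m) (F : Set (Fn m)),
  (∀ i ∈ S, g i ∈ F) →
    (∀ h : Fn m, (∀ x, h x = true ↔ ∃ i ∈ S, g i x = true) → Rel F (S.card + 1) 0 {h}) ∧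
    ∀ h : Fn m, (∀ x, h x = true ↔ ∀ i ∈ S, g i x = true) → Rel F (S.card + 1) 0 {h}

/-- ROW ht:DP. Induction on `n` (last bit): for `n + 1` and the syndrome `σ`:
`(h_σ && Q_last) || (h_(σ - H_last) && P_last)`: 3 gates for each `σ`, `2 ^ (k+1)` syndromes
(`Rel.biUnion`). `n = 0`: the constants (2 gates). -/
def DP_stmt : Prop := ∀ (n m k : ℕ) (H : Fin n → Gk k) (P Q : Fin n → Fn m),
  Rel (Set.range P ∪ Set.range Q) (3 * n * 2 ^ (k + 1) + 2) 0
    {h | ∃ σ, ∀ x, h x = true ↔ ∃ y, Al (fun i => P i x) (fun i => Q i x) y ∧ syn H y = σ}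

/-- ROW ht:EXR (from DP). For each `(i, b)`: one constant (false), then DP with
`P' = Function.update P i false` if `b = false` and `Q' = Function.update Q i false` if `b = true`
(this forces `y i = b`); `Rel.biUnion` over `Fin n × Bool`. -/
def EXR_stmt : Prop := ∀ (n m k : ℕ) (H : Fin n → Gk k) (P Q : Fin n → Fn m),
  Rel (Set.range P ∪ Set.range Q) (2 * n * (3 * n * 2 ^ (k + 1) + 3)) 0
    {h | ∃ σ b i, ∀ x, h x = ex H (fun i => P i x) (fun i => Q i x) σ b i}

/-- ROW ht:PHR (from EXR, OAS). EXR, then `Rel.dual` for each `σ` (`2 s` gates; `Rel.biUnion`),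
then OAS over the syndromes. In total `2n(3n 2^(k+1) + 3) + 2^(k+1) 2s + 2^(k+1) + 1` gates. -/
def PHR_stmt : Prop := ∀ (n m s k : ℕ) (C : Circuit n s) (o : Fin (n + s)) (H : Fin n → Gk k)
  (P Q : Fin n → Fn m),
  Rel (Set.range P ∪ Set.range Q) (2 ^ (k + 2) * (5 * n ^ 2 + s + 1)) 0
    {fun x => PHI C o H (fun i => P i x) (fun i => Q i x)}

/-- ROW ht:FMR (from PHR, OAS). -/
def FMR_stmt : Prop := ∀ (n m s k t : ℕ) (C : Circuit n s) (o : Fin (n + s))
  (Hs : Fin t → Fin n → Gk k) (P Q : Fin n → Fn m),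
  Rel (Set.range P ∪ Set.range Q) (t * (2 ^ (k + 2) * (5 * n ^ 2 + s + 1)) + t + 1) 0
    {fun x => FAM C o Hs (fun i => P i x) (fun i => Q i x)}

/-- ROW ht:CNT. The map `(Fin k → Option (Fin n)) → Finset (Fin n)`, `f ↦ {i : some i ∈ range f}`
is onto the subsets with at most `k` elements. -/
def CNT_stmt : Prop := ∀ n k : ℕ,
  (Finset.univ.filter fun S : Finset (Fin n) => S.card ≤ k).card ≤ (n + 1) ^ k

/-- ROW ht:TOR (from OAS, CNT). Two constants; for each `T` (`≤ (n+1)^l`) and `U ⊆ T`
(`≤ 2^l`) the `c` gates of `Φ`; AND over `U`, OR over `T`: at most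
`2 + (2n+2)^l c + (n+1)^l (2^l + 1) + (n+1)^l + 1` gates. -/
def TOR_stmt : Prop := ∀ (n m l c : ℕ) (Φ : (Fin n → Bool) → (Fin n → Bool) → Bool),
  (∀ P Q : Fin n → Fn m, Rel (Set.range P ∪ Set.range Q) c 0
    {fun x => Φ (fun i => P i x) (fun i => Q i x)}) →
  ∀ P Q : Fin n → Fn m, Rel (Set.range P ∪ Set.range Q) ((2 * n + 2) ^ l * (c + 6)) 0
    {fun x => TOT l Φ (fun i => P i x) (fun i => Q i x)}

/-! ## The family of matrices -/

/-- ROW ht:HC. A bad `H` has `∑_T H = 0` for a nonempty `T ⊆ S`; for fixed `T ∋ i0` the map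
`H ↦ ∑_T H` takes every value equally often (translate `H i0`), so
`#{H : ∑_T H = 0} * 2^(k+1) = #all`; there are at most `2^k` sets `T`. -/
def HC_stmt : Prop := ∀ (n k : ℕ) (S : Finset (Fin n)) [DecidablePred fun H : Fin n → Gk k => ¬ Good H S],
  S.card ≤ k →
    2 * (Finset.univ.filter fun H : Fin n → Gk k => ¬ Good H S).card ≤
      Fintype.card (Fin n → Gk k)

/-- ROW ht:HG (from HC). Double counting of the pairs `(H, S)`, `S` bad for `H`. -/
def HG_stmt : Prop := ∀ (n k : ℕ) (W : Finset (Finset (Fin n))), (∀ S ∈ W, S.card ≤ k) →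
  ∃ (H : Fin n → Gk k) (W' : Finset (Finset (Fin n))), 2 * W'.card ≤ W.card ∧
    ∀ S ∈ W, S ∉ W' → Good H S

/-- ROW ht:HF (from HG, CNT). Induction on `t`: for every `W` (sets with at most `k` elements) there
are `t` matrices such that `2^t * #(not yet good) ≤ #W`; `W` = all such sets, `#W ≤ (n+1)^k < 2^t`. -/
def HF_stmt : Prop := ∀ (n k t : ℕ), (n + 1) ^ k < 2 ^ t →
  ∃ Hs : Fin t → Fin n → Gk k, ∀ S : Finset (Fin n), S.card ≤ k → ∃ j, Good (Hs j) S

/-! ## The conversion -/

/-- ROW ht:UP0 (from HF, FMX, TOX, FMR, TOR, FIN). `t = k (lg n + 1) + 1` (`(n+1)^k < 2^t` by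
`lt_two_pow_lg`), `c = t * (2^(k+2) (5n^2+s+1)) + t + 1 ≤ t 2^(k+2) (5n^2+s+2)`. The functions
`P i z = z (Fin.castAdd n i)`, `Q i z = z (Fin.natAdd n i)` of `n + n` bits are free (`Rel.var`),
`Rel.toCircuit` gives `M`. -/
def UP0_stmt : Prop := ∀ (n s k l : ℕ) (C : Circuit n s) (o : Fin (n + s)),
  ∃ s' ≤ n + (k * (lg n + 1) + 1) * 2 ^ (k + 2) * (2 * n + 2) ^ l * (5 * n ^ 2 + s + 4),
    ∃ (C' : Circuit n s') (o' : Fin (n + s')), (∀ x, C'.val x o' = C.val x o) ∧
      HazardFree false k C' o' ∧ HazardFree true l C' o'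

/-- ROW ht:UP (from UP0, NEG, V3). `b = false`: UP0. `b = true`: NEG, UP0 for the negation, NEG
again. -/
def UP_stmt : Prop := ∀ (b : Bool) (n s k l : ℕ) (C : Circuit n s) (o : Fin (n + s)),
  ∃ s' ≤ (k * (lg n + 1) + 1) * 2 ^ (k + 2) * (2 * n + 2) ^ l * (6 * n ^ 2 + s + 6),
    ∃ (C' : Circuit n s') (o' : Fin (n + s')), (∀ x, C'.val x o' = C.val x o) ∧
      HazardFree b k C' o' ∧ HazardFree (!b) l C' o'

/-! ## Languages -/

/-- ROW ht:REN. Induction on `C` with a map of all wires. -/
def REN_stmt : Prop := ∀ (N N' s : ℕ) (C : Circuit N s) (o : Fin (N + s)) (ι : Fin N → Fin N'),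
  ∃ (C' : Circuit N' s) (o' : Fin (N' + s)), ∀ x, C'.val x o' = C.val (fun i => x (ι i)) o

/-- The language that reads only the first `min (k n) n` bits. -/
def pad (k : ℕ → ℕ) (A : Lang) : Lang := fun n x =>
  A (min (k n) n) fun i => x (Fin.castLE (min_le_right (k n) n) i)

/-- ROW ht:PAD (from REN). The same polynomial (`min (k n) n ≤ n`, `Polynomial.eval` over `ℕ` is
monotone in the point); inputs `Fin (m + w) → Fin (n + w)`. -/
def PAD_stmt : Prop := ∀ (k : ℕ → ℕ) (A : Lang), InNPPoly A → InNPPoly (pad k A)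

/-- ROW ht:LBM (from V3). For `x : Fin m → Bool` let `a_x i = if x i = !b then none else some b` for
`i < m` and `some false` for `i ≥ m`; `β = !b`. Its rails are `rl β = x i`, `rl' β = β` (`i < m`)
and `false`, `true` (`i ≥ m`): two constants, then `Rel.dual C P Q` (`2 s` gates),
`Rel.toCircuit`. The output `(dval C P Q o).1 = rl β (val3 C a_x o)` is `f x`: if `f x` has the
value `b` then so has every completion (`f` is monotone) and `HazardFree` gives `some b`
(`unk a_x ≤ m ≤ k`); if `f x` has the value `!b`, then by V3 (3) for the completion by `x` (and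
`false` for `i ≥ m`) the ternary value is `none` or `some (!b)`, and `rl β` of it is `!b`. -/
def LBM_stmt : Prop := ∀ (b : Bool) (n m s k : ℕ) (hmn : m ≤ n), m ≤ k →
  ∀ (C : Circuit n s) (o : Fin (n + s)) (f : (Fin m → Bool) → Prop), Monotone f →
    C.Computes o (fun x => f fun i => x (Fin.castLE hmn i)) → HazardFree b k C o →
    ∃ s' ≤ 2 * s + 2, ∃ (C' : Circuit m s') (o' : Fin (m + s')), C'.notCount = 0 ∧
      C'.Computes o' f

/-- ROW ht:LBL (from LBM). `size_bound` (helper38/Neg/Lang.lean) with `K = 1`, `lang_mono`. -/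
def LBL_stmt : Prop := ∀ (b : Bool) (k : ℕ → ℕ) (n s : ℕ), 2 ≤ min (k n) n →
  ∀ (C : Circuit n s) (o : Fin (n + s)), C.Computes o (pad k lang n) → HazardFree b (k n) C o →
    (2 : ℝ) ^ ((1 / 64 : ℝ) * (((min (k n) n : ℕ) : ℝ) /
      Real.log ((min (k n) n : ℕ) : ℝ)) ^ ((1 : ℝ) / 4)) ≤ 2 * s + 4

/-- ROW ht:GRO (from LBL). Let `m = min (k n) n`, `L = lg n`. If `m < 2` there is nothing to do
(`lg ≥ 1`). The hypothesis and LBL: `(1/64) (m / ln m)^(1/4) ≤ c L^e + 4`, so
`m / ln m ≤ D L^(4e)`, `D = (64 (c + 4))^4`. As `ln m ≤ √m`, `m ≤ D^2 L^(8e)`, so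
`ln m ≤ 2 ln D + 8 e ln L ≤ D' lg L`, and `m ≤ D D' L^(4e) lg L`. -/
def GRO_stmt : Prop := ∀ (b : Bool) (k : ℕ → ℕ) (c e : ℕ),
  (∀ n, ∃ s ≤ 2 ^ (c * lg n ^ e), ∃ (C : Circuit n s) (o : Fin (n + s)),
    C.Computes o (pad k lang n) ∧ HazardFree b (k n) C o) →
  ∃ d, ∀ n, min (k n) n ≤ d * lg n ^ (4 * e) * lg (lg n)

/-- ROW ht:DBL. From `dbl_inNPPoly`, `dbl_mono`, `dbl_circuit` (helper55/NT/Dbl.lean), as in
`poly_criterion` and `inQuasi_of_dbl` (helper55/NT/Threshold.lean), where the NOT counts play no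
role. -/
def DBL_stmt : Prop :=
  ((∀ A, InNPPoly A → (∀ n, Monotone (A n)) → InPPoly A) → ∀ A, InNPPoly A → InPPoly A) ∧
  ((∀ A, InNPPoly A → (∀ n, Monotone (A n)) → InQuasi A) → ∀ A, InNPPoly A → InQuasi A)

/-- ROW ht:PCR (from UP). `2^(k n + 2) ≤ 4 (n+2)^c`, `k n (lg n + 1) + 1 ≤ polynomial`. -/
def PCR_stmt : Prop := ∀ (b : Bool) (k : ℕ → ℕ) (l c : ℕ), (∀ n, k n ≤ c * lg n) →
  ∀ A, InPPoly A → PolyHF b k (fun _ => l) A

/-- ROW ht:QCR (from UP). Apply UP with `min (k n) n`, `min (l n) n` (`unk a ≤ n` always, so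
`HazardFree b (min (k n) n)` gives `HazardFree b (k n)`); `2n + 2 ≤ 2^(lg n + 2)`. -/
def QCR_stmt : Prop := ∀ (b : Bool) (k l : ℕ → ℕ) (c : ℕ),
  (∀ n, min (k n) n ≤ c * lg n ^ c) → (∀ n, min (l n) n ≤ c * lg n ^ c) →
  ∀ A, InQuasi A → QuasiHF b k l A

/-- ROW ht:POL. `eval_le_two_pow` (helper55/NT/Threshold.lean): a polynomial bound is of the form
`2 ^ (c * lg n ^ 1)`. Then GRO with `e = 1`, resp. `e = c`; for the second use that
`lg (lg n) ≤ lg n` and enlarge the constant. (from GRO, PAD; `lang_inNPPoly`, `lang_mono`; the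
padded language is monotone.) -/
def POL_stmt : Prop := ∀ (b : Bool) (k l : ℕ → ℕ),
  ((∀ A, InNPPoly A → (∀ n, Monotone (A n)) → PolyHF b k l A) →
    ∃ d, ∀ n, min (k n) n ≤ d * lg n ^ 4 * lg (lg n)) ∧
  ((∀ A, InNPPoly A → (∀ n, Monotone (A n)) → QuasiHF b k l A) →
    ∃ d, (∀ n, min (k n) n ≤ d * lg n ^ d) ∧ ∀ n, min (l n) n ≤ d * lg n ^ d)

end Pool.Agent.helper88.HT
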